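import Pool.Agent.L7h10.AB.Stm

namespace Pool.Agent.L7h46.AB

open Polynomial Pool.Agent.L7h10.AB

noncomputable def Q4 {K : Type} [Field K] (b c d : K) : K[X] := X ^ 4 + C b * X ^ 2 + C c * X + C d

lemma natDegree_Q4 {K : Type} [Field K] (b c d : K) : (Q4 b c d).natDegree = 4 := by
  unfold Q4; compute_degree!

lemma monic_Q4 {K : Type} [Field K] (b c d : K) : (Q4 b c d).Monic := by
  unfold Q4; monicity!

lemma coeff_Q4 {K : Type} [Field K] (b c d : K) :
    (Q4 b c d).coeff 0 = d ∧ (Q4 b c d).coeff 1 = c ∧ (Q4 b c d).coeff 2 = b ∧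
    (Q4 b c d).coeff 3 = 0 ∧ (Q4 b c d).coeff 4 = 1 := by
  unfold Q4
  refine ⟨?_, ?_, ?_, ?_, ?_⟩ <;> simp [coeff_X, coeff_X_pow, coeff_C]

lemma eq_Q4 {K : Type} [Field K] (f : K[X]) (hm : f.Monic) (hd : f.natDegree = 4)
    (h3 : f.coeff 3 = 0) : f = Q4 (f.coeff 2) (f.coeff 1) (f.coeff 0) := by
  have h := f.as_sum_range_C_mul_X_pow
  rw [hd] at h
  have h4 : f.coeff 4 = 1 := by rw [← hd]; exact hm
  simp only [Finset.sum_range_succ, Finset.sum_range_zero] at h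
  rw [h3, h4] at h
  rw [Q4]
  conv_lhs => rw [h]
  simp
  ring

lemma aeval_Q4 {K : Type} [Field K] (b c d : K) (r : AlgebraicClosure K) :
    aeval r (Q4 b c d) = r ^ 4 + algebraMap K (AlgebraicClosure K) b * r ^ 2 +
      algebraMap K (AlgebraicClosure K) c * r + algebraMap K (AlgebraicClosure K) d := by
  simp [Q4, aeval_C]

lemma aeval_dQ4 {K : Type} [Field K] (b c d : K) (r : AlgebraicClosure K) :
    aeval r (derivative (Q4 b c d)) = 4 * r ^ 3 + 2 * algebraMap K (AlgebraicClosure K) b * r +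
      algebraMap K (AlgebraicClosure K) c := by
  have h3 : (algebraMap K (AlgebraicClosure K)) 3 = 3 := map_ofNat _ 3
  simp [Q4, aeval_C, h3]
  ring

lemma aeval_primQ4 {K : Type} [Field K] (b c d : K) (r : AlgebraicClosure K) :
    aeval r (prim (Q4 b c d)) = r ^ 5 / 5 + algebraMap K (AlgebraicClosure K) b * r ^ 3 / 3 +
      algebraMap K (AlgebraicClosure K) c * r ^ 2 / 2 + algebraMap K (AlgebraicClosure K) d * r := by
  obtain ⟨h0, h1, h2, h3, h4⟩ := coeff_Q4 b c d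
  unfold prim
  rw [natDegree_Q4]
  simp only [Finset.sum_range_succ, Finset.sum_range_zero, h0, h1, h2, h3, h4]
  simp only [map_add, map_mul, aeval_C, map_pow, aeval_X, map_div₀, map_one, map_zero, map_natCast]
  push_cast
  norm_num
  ring

lemma SB_Q4 {K : Type} [Field K] (b c d : K) : SB (Q4 b c d) ↔
    ¬ Dbl (algebraMap K (AlgebraicClosure K) b) (algebraMap K (AlgebraicClosure K) c)
        (algebraMap K (AlgebraicClosure K) d) ∧
    ¬ Col (algebraMap K (AlgebraicClosure K) b) (algebraMap K (AlgebraicClosure K) c)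
        (algebraMap K (AlgebraicClosure K) d) := by
  unfold SB Dbl Col
  simp only [aeval_Q4, aeval_dQ4, aeval_primQ4]
  constructor
  · rintro ⟨h1, h2⟩
    refine ⟨?_, ?_⟩
    · rintro ⟨r, hr, hr'⟩
      exact h1 r hr hr'
    · rintro ⟨r, s, hrs, hr, hs, he⟩
      exact hrs (h2 r s hr hs he)
  · rintro ⟨h1, h2⟩
    refine ⟨fun r hr hr' => h1 ⟨r, hr, hr'⟩, fun r s hr hs he => ?_⟩
    by_contra hrs
    exact h2 ⟨r, s, hrs, hr, hs, he⟩

theorem s_BRG : S_BRG := by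
  intro K _ _ p _ hp
  unfold Ncen
  refine Nat.card_congr ?_
  refine
    { toFun := fun f => ⟨(f.1.coeff 2, f.1.coeff 1, f.1.coeff 0), ?_⟩
      invFun := fun x => ⟨Q4 x.1.1 x.1.2.1 x.1.2.2, ?_⟩
      left_inv := ?_
      right_inv := ?_ }
  · have h := f.2.2.2.2
    rw [eq_Q4 f.1 f.2.1 f.2.2.1 f.2.2.2.1] at h
    exact (SB_Q4 _ _ _).1 h
  · exact ⟨monic_Q4 _ _ _, natDegree_Q4 _ _ _, (coeff_Q4 _ _ _).2.2.2.1, (SB_Q4 _ _ _).2 x.2⟩
  · rintro ⟨f, hm, hd, h3, hs⟩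
    apply Subtype.ext
    exact (eq_Q4 f hm hd h3).symm
  · rintro ⟨⟨b, c, d⟩, hx⟩
    apply Subtype.ext
    obtain ⟨h0, h1, h2, h3, h4⟩ := coeff_Q4 b c d
    simp only [h0, h1, h2]

end Pool.Agent.L7h46.AB
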