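import Pool.Agent.L7h10.AB.Stm2

namespace Pool.Agent.L7h46.AB

open Polynomial Pool.Agent.L7h10.AB

lemma card_le_rel {A T : Type} [Finite T] (R : A → T → Prop) (h1 : ∀ x, ∃ t, R x t)
    (h2 : ∀ x y t, R x t → R y t → x = y) : Nat.card A ≤ Nat.card T := by
  choose f hf using h1
  exact Nat.card_le_card_of_injective f (fun x y hxy => h2 x y (f x) (hf x) (hxy ▸ hf y))

lemma not_same {K : Type} [Field K] {n : ℕ} (g : Mon K 2) (h h' : Mon K n) (hne : h ≠ h') (c : K)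
    (he : g.1 ^ 2 * h.1 - g.1 ^ 2 * h'.1 = C c) : False := by
  have hd : h.1 - h'.1 ≠ 0 := fun h0 => hne (Subtype.ext (sub_eq_zero.1 h0))
  have hg : g.1 ^ 2 ≠ 0 := pow_ne_zero _ g.2.1.ne_zero
  have e : g.1 ^ 2 * (h.1 - h'.1) = C c := by rw [← he]; ring
  have e2 := congrArg natDegree e
  rw [natDegree_mul hg hd, natDegree_pow, g.2.2, natDegree_C] at e2
  omega

lemma common {K : Type} [Field K] (g g' : Mon K 2) (hne : g ≠ g') (hc : ¬ IsCoprime g'.1 g.1) :
    ∃ b a a' : K, a ≠ a' ∧ g.1 = (X - C b) * (X - C a) ∧ g'.1 = (X - C b) * (X - C a') := by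
  have hx : ∃ z : K[X], Irreducible z ∧ z ∣ g'.1 ∧ z ∣ g.1 := by
    by_contra h
    push Not at h
    exact hc (isCoprime_of_irreducible_dvd (fun h0 => g.2.1.ne_zero h0.2) h)
  obtain ⟨z, hz, hz1, hz2⟩ := hx
  have hzd : z.natDegree ≤ 2 := by
    have := natDegree_le_of_dvd hz2 g.2.1.ne_zero
    rw [g.2.2] at this; exact this
  have hz0 : 0 < z.natDegree := hz.natDegree_pos
  have hz2' : z.natDegree ≠ 2 := by
    intro h2
    apply hne
    apply Subtype.ext
    have k1 : Associated z g.1 := by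
      obtain ⟨w, hw⟩ := hz2
      have hw0 : w ≠ 0 := by rintro rfl; rw [mul_zero] at hw; exact g.2.1.ne_zero hw
      have := congrArg natDegree hw
      rw [natDegree_mul hz.ne_zero hw0, g.2.2, h2] at this
      have hw1 : IsUnit w := by
        rw [isUnit_iff_degree_eq_zero, degree_eq_natDegree hw0]
        have : w.natDegree = 0 := by omega
        rw [this]; rfl
      exact ⟨hw1.unit, by rw [hw]; rfl⟩
    have k2 : Associated z g'.1 := by
      obtain ⟨w, hw⟩ := hz1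
      have hw0 : w ≠ 0 := by rintro rfl; rw [mul_zero] at hw; exact g'.2.1.ne_zero hw
      have := congrArg natDegree hw
      rw [natDegree_mul hz.ne_zero hw0, g'.2.2, h2] at this
      have hw1 : IsUnit w := by
        rw [isUnit_iff_degree_eq_zero, degree_eq_natDegree hw0]
        have : w.natDegree = 0 := by omega
        rw [this]; rfl
      exact ⟨hw1.unit, by rw [hw]; rfl⟩
    exact eq_of_monic_of_associated g.2.1 g'.2.1 (k1.symm.trans k2)
  have hz1' : z.degree = 1 := by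
    rw [degree_eq_natDegree hz.ne_zero]
    have : z.natDegree = 1 := by omega
    rw [this]; rfl
  obtain ⟨b, hb⟩ := exists_root_of_degree_eq_one hz1'
  have hbz := dvd_iff_isRoot.2 hb
  have fac : ∀ g : Mon K 2, (X - C b) ∣ g.1 → ∃ a, g.1 = (X - C b) * (X - C a) := by
    intro g hg
    obtain ⟨l, hl⟩ := hg
    have hlm : l.Monic := by
      have := g.2.1
      rw [hl] at this
      exact (monic_X_sub_C b).of_mul_monic_left this
    have hld : l.natDegree = 1 := by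
      have := congrArg natDegree hl
      rw [g.2.2, (monic_X_sub_C b).natDegree_mul hlm, natDegree_X_sub_C] at this
      omega
    refine ⟨-(l.coeff 0), ?_⟩
    rw [hl]
    congr 1
    rw [map_neg, sub_neg_eq_add]
    exact hlm.eq_X_add_C hld
  obtain ⟨a, ha⟩ := fac g (hbz.trans hz2)
  obtain ⟨a', ha'⟩ := fac g' (hbz.trans hz1)
  refine ⟨b, a, a', ?_, ha, ha'⟩
  rintro rfl
  exact hne (Subtype.ext (ha.trans ha'.symm))

lemma cstep {K : Type} [Field K] (g g' : K[X]) (c : K) (hc : IsCoprime g' g) :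
    ∃ r : K[X], ∀ h h' : K[X], g ^ 2 * h - g' ^ 2 * h' = C c → g' ^ 2 ∣ h - r := by
  obtain ⟨a, b, hab⟩ := (hc.pow : IsCoprime (g' ^ 2) (g ^ 2))
  refine ⟨C c * b, fun h h' e => ⟨a * h + b * h', ?_⟩⟩
  rw [← e]
  linear_combination (-h) * hab

theorem s_CC : S_CC := by
  intro hCARD hRES K _ _ p _ n hn hp
  have : ∀ m, Finite (Mon K m) := fun m => (hCARD K m).1
  have hcard : ∀ m, Nat.card (Mon K m) = Nat.card K ^ m := fun m => (hCARD K m).2
  have hr : ∀ t : Mon K 2 × Mon K 2 × K, ∃ r : K[X], IsCoprime t.2.1.1 t.1.1 →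
      ∀ h h' : K[X], t.1.1 ^ 2 * h - t.2.1.1 ^ 2 * h' = C t.2.2 → t.2.1.1 ^ 2 ∣ h - r := by
    intro t
    by_cases hc : IsCoprime t.2.1.1 t.1.1
    · obtain ⟨r, hr⟩ := cstep t.1.1 t.2.1.1 t.2.2 hc
      exact ⟨r, fun _ => hr⟩
    · exact ⟨0, fun h => absurd h hc⟩
  choose r hr using hr
  let T1 : Type := Σ t : Mon K 2 × Mon K 2 × K, {h : Mon K (n - 3) // t.2.1.1 ^ 2 ∣ h.1 - r t}
  let T2 : Type := K × K × K × Mon K (n - 5)
  have : Finite T1 := by
    show Finite (Σ t : Mon K 2 × Mon K 2 × K, {h : Mon K (n - 3) // t.2.1.1 ^ 2 ∣ h.1 - r t})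
    infer_instance
  have : Finite T2 := by
    show Finite (K × K × K × Mon K (n - 5))
    infer_instance
  have hT1 : Nat.card T1 = Nat.card K ^ (n - 2) := by
    show Nat.card (Σ t : Mon K 2 × Mon K 2 × K, {h : Mon K (n - 3) // t.2.1.1 ^ 2 ∣ h.1 - r t}) = _
    letI := Fintype.ofFinite (Mon K 2 × Mon K 2 × K)
    rw [Nat.card_sigma]
    have : ∀ t : Mon K 2 × Mon K 2 × K,
        Nat.card {h : Mon K (n - 3) // t.2.1.1 ^ 2 ∣ h.1 - r t} = Nat.card K ^ (n - 7) := by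
      intro t
      have hd : (t.2.1.1 ^ 2).natDegree = 4 := by rw [natDegree_pow, t.2.1.2.2]
      rw [hRES K (n - 3) (t.2.1.1 ^ 2) (r t) (t.2.1.2.1.pow 2) (by rw [hd]; omega), hd]
      congr 1
    rw [Finset.sum_congr rfl (fun t _ => this t), Finset.sum_const, Finset.card_univ,
      ← Nat.card_eq_fintype_card, Nat.card_prod, Nat.card_prod, hcard, smul_eq_mul]
    have : n - 2 = 2 + 2 + 1 + (n - 7) := by omega
    rw [this]
    ring
  have hT2 : Nat.card T2 = Nat.card K ^ (n - 2) := by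
    show Nat.card (K × K × K × Mon K (n - 5)) = _
    rw [Nat.card_prod, Nat.card_prod, Nat.card_prod, hcard]
    have : n - 2 = 3 + (n - 5) := by omega
    rw [this]
    ring
  have hT : Nat.card (T1 ⊕ T2) = 2 * Nat.card K ^ (n - 2) := by
    rw [Nat.card_sum, hT1, hT2]; ring
  rw [← hT]
  let R : {x : (Mon K 2 × Mon K (n - 3)) × (Mon K 2 × Mon K (n - 3)) // x.1 ≠ x.2 ∧
    derivative (x.1.1.1 ^ 2 * x.1.2.1) = derivative (x.2.1.1 ^ 2 * x.2.2.1)} → T1 ⊕ T2 → Prop :=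
    fun x t => Sum.elim
      (fun t : T1 => x.1.1.1 = t.1.1 ∧ x.1.2.1 = t.1.2.1 ∧ x.1.1.2 = t.2.1 ∧
        x.1.1.1.1 ^ 2 * x.1.1.2.1 - x.1.2.1.1 ^ 2 * x.1.2.2.1 = C t.1.2.2)
      (fun t : T2 => x.1.1.1.1 = (X - C t.1) * (X - C t.2.1) ∧
        x.1.2.1.1 = (X - C t.1) * (X - C t.2.2.1) ∧
        x.1.1.2.1 = (X - C t.2.2.1) ^ 2 * t.2.2.2.1 ∧
        x.1.2.2.1 = (X - C t.2.1) ^ 2 * t.2.2.2.1) t
  refine card_le_rel R ?_ ?_
  · rintro ⟨⟨⟨g, h⟩, ⟨g', h'⟩⟩, hne, hd⟩
    simp only at hne hd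
    obtain ⟨c, hc⟩ : ∃ c : K, g.1 ^ 2 * h.1 - g'.1 ^ 2 * h'.1 = C c := by
      have hdeg : ∀ (g : Mon K 2) (h : Mon K (n - 3)), (g.1 ^ 2 * h.1).natDegree ≤ n + 1 := by
        intro g h
        rw [(g.2.1.pow 2).natDegree_mul h.2.1, natDegree_pow, g.2.2, h.2.2]
        omega
      have h1 : (g.1 ^ 2 * h.1 - g'.1 ^ 2 * h'.1).natDegree < p :=
        lt_of_le_of_lt (natDegree_sub_le_of_le (hdeg g h) (hdeg g' h')) (by simpa using hp)
      have h2 : derivative (g.1 ^ 2 * h.1 - g'.1 ^ 2 * h'.1) = 0 := by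
        rw [derivative_sub, hd, sub_self]
      exact ⟨_, Pool.Agent.L7h56.AB.const_of_deriv p _ h1 h2⟩
    by_cases hgg : g = g'
    · subst hgg
      exact (not_same g h h' (fun e => hne (by rw [e])) c hc).elim
    by_cases hco : IsCoprime g'.1 g.1
    · refine ⟨Sum.inl ⟨(g, g', c), ⟨h, hr (g, g', c) hco h.1 h'.1 hc⟩⟩, ?_⟩
      exact ⟨rfl, rfl, rfl, hc⟩
    · obtain ⟨b, a, a', haa, hg, hg'⟩ := common g g' hgg hco
      have hc0 : c = 0 := by
        have := congrArg (eval b) hc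
        rw [hg, hg'] at this
        simp at this
        exact this.symm
      rw [hc0, map_zero, sub_eq_zero, hg, hg'] at hc
      have hxb : (X - C b : K[X]) ^ 2 ≠ 0 := pow_ne_zero _ (X_sub_C_ne_zero b)
      have e1 : (X - C a) ^ 2 * h.1 = (X - C a') ^ 2 * h'.1 := by
        apply mul_left_cancel₀ hxb
        linear_combination hc
      have hcop : IsCoprime ((X - C a') ^ 2 : K[X]) ((X - C a) ^ 2) := by
        apply IsCoprime.pow
        apply isCoprime_X_sub_C_of_isUnit_sub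
        exact (sub_ne_zero.2 (Ne.symm haa)).isUnit
      have hdv : (X - C a') ^ 2 ∣ h.1 := hcop.dvd_of_dvd_mul_left ⟨h'.1, e1⟩
      obtain ⟨k, hk⟩ := hdv
      have hkm : k.Monic := by
        have := h.2.1
        rw [hk] at this
        exact ((monic_X_sub_C a').pow 2).of_mul_monic_left this
      have hkd : k.natDegree = n - 5 := by
        have := congrArg natDegree hk
        rw [h.2.2, ((monic_X_sub_C a').pow 2).natDegree_mul hkm, natDegree_pow,
          natDegree_X_sub_C] at this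
        omega
      have hh' : h'.1 = (X - C a) ^ 2 * k := by
        have hxa : (X - C a' : K[X]) ^ 2 ≠ 0 := pow_ne_zero _ (X_sub_C_ne_zero a')
        apply mul_left_cancel₀ hxa
        rw [← e1, hk]; ring
      refine ⟨Sum.inr (b, a, a', ⟨k, hkm, hkd⟩), ?_⟩
      exact ⟨hg, hg', hk, hh'⟩
  · rintro ⟨⟨⟨g, h⟩, ⟨g', h'⟩⟩, hne, hd⟩ ⟨⟨⟨g2, h2⟩, ⟨g2', h2'⟩⟩, hne2, hd2⟩ t ht ht2
    rcases t with ⟨⟨u, u', c⟩, v⟩ | ⟨b, a, a', k⟩
    · obtain ⟨e1, e2, e3, e4⟩ := ht
      obtain ⟨f1, f2, f3, f4⟩ := ht2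
      simp only at e1 e2 e3 e4 f1 f2 f3 f4
      subst e1 e2 f1 f2
      have e5 : h = h2 := e3.trans f3.symm
      subst e5
      have e6 : h' = h2' := by
        apply Subtype.ext
        have hg0 : (g2'.1) ^ 2 ≠ 0 := pow_ne_zero _ g2'.2.1.ne_zero
        apply mul_left_cancel₀ hg0
        linear_combination f4 - e4
      subst e6
      rfl
    · obtain ⟨e1, e2, e3, e4⟩ := ht
      obtain ⟨f1, f2, f3, f4⟩ := ht2
      simp only at e1 e2 e3 e4 f1 f2 f3 f4
      have k1 : g = g2 := Subtype.ext (e1.trans f1.symm)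
      have k2 : g' = g2' := Subtype.ext (e2.trans f2.symm)
      have k3 : h = h2 := Subtype.ext (e3.trans f3.symm)
      have k4 : h' = h2' := Subtype.ext (e4.trans f4.symm)
      subst k1 k2 k3 k4
      rfl

end Pool.Agent.L7h46.AB
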